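import Pool.Agent.X223.AU.Model

/-!
The set of the nonzero integers with even `p`-adic valuation is recognized by a finite automaton.
-/

set_option autoImplicit false

namespace Pool.Agent.X223.AU

/-- The states of the automaton. -/
inductive St
  | start | minus | even | odd | dead
  deriving DecidableEq

instance : Fintype St := ⟨{.start, .minus, .even, .odd, .dead}, by
  intro x
  cases x <;> decide⟩

section

variable {p : ℕ} [hp : Fact p.Prime] [NeZero p]

/-- The transition function. -/
def stp : St → Option (Fin p) → St
  | .start, none => .minus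
  | .start, some d => if d = 0 then .dead else .even
  | .minus, none => .dead
  | .minus, some d => if d = 0 then .dead else .even
  | .even, none => .dead
  | .even, some d => if d = 0 then .odd else .even
  | .odd, none => .dead
  | .odd, some _ => .even
  | .dead, _ => .dead

variable (p) in
/-- The automaton. -/
def auto : DFA (Option (Fin p)) St where
  step := stp
  start := .start
  accept := {.even}

variable (p) in
/-- The digits of a natural number, most significant digit first. -/
def dig (m : ℕ) : List (Option (Fin p)) :=
  (Nat.digits p m).reverse.map fun d => some (Fin.ofNat p d)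

theorem word_eq (n : ℤ) : word p n = (if n < 0 then [none] else []) ++ dig p n.natAbs := rfl

omit hp in
theorem dig_zero : dig p 0 = [] := by
  unfold dig
  simp

theorem dig_pos {m : ℕ} (hm : 0 < m) :
    dig p m = dig p (m / p) ++ [some (Fin.ofNat p m)] := by
  unfold dig
  rw [Nat.digits_def' hp.1.one_lt hm, List.reverse_cons, List.map_append]
  congr 2
  simp only [List.map_cons, List.map_nil]
  congr 2
  ext
  simp [Fin.ofNat]

/-- The state for a valuation. -/
def parSt (v : ℕ) : St := if Even v then .even else .odd

theorem ofNat_eq_zero (m : ℕ) : Fin.ofNat p m = 0 ↔ p ∣ m := by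
  rw [Fin.ext_iff, Fin.val_ofNat, Nat.dvd_iff_mod_eq_zero]
  rfl

theorem eval_dig {m : ℕ} (hm : 0 < m) {s : St} (hs : s = .start ∨ s = .minus) :
    (auto p).evalFrom s (dig p m) = parSt (padicValNat p m) := by
  induction m using Nat.strong_induction_on with
  | _ m ih =>
    rw [dig_pos hm, DFA.evalFrom_append_singleton]
    by_cases hq : m / p = 0
    · rw [hq, dig_zero]
      have hlt : m < p := by
        by_contra h
        have := Nat.div_pos (not_lt.1 h) hp.1.pos
        omega
      have hnd : ¬ p ∣ m := fun h => absurd (Nat.le_of_dvd hm h) (not_le.2 hlt)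
      rw [padicValNat.eq_zero_of_not_dvd hnd]
      have h0 : Fin.ofNat p m ≠ 0 := fun h => hnd ((ofNat_eq_zero m).1 h)
      show stp s (some (Fin.ofNat p m)) = parSt 0
      rcases hs with rfl | rfl
      · simp [stp, parSt, hnd]
      · simp [stp, parSt, hnd]
    · rw [ih (m / p) (Nat.div_lt_self hm hp.1.one_lt) (Nat.pos_of_ne_zero hq)]
      by_cases hd : p ∣ m
      · obtain ⟨q, rfl⟩ := hd
        have hq0 : q ≠ 0 := by
          rintro rfl
          simp at hm
        rw [Nat.mul_div_cancel_left _ hp.1.pos, padicValNat.mul hp.1.ne_zero hq0,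
          padicValNat.self hp.1.one_lt]
        have h0 : Fin.ofNat p (p * q) = 0 := (ofNat_eq_zero _).2 (dvd_mul_right p q)
        rw [h0]
        show stp (parSt (padicValNat p q)) (some 0) = parSt (1 + padicValNat p q)
        unfold parSt
        by_cases he : Even (padicValNat p q)
        · rw [if_pos he, if_neg (by
            rw [Nat.not_even_iff_odd, add_comm]
            exact he.add_one)]
          simp [stp]
        · rw [if_neg he, if_pos (by
            rw [Nat.not_even_iff_odd] at he
            rw [add_comm]
            exact he.add_one)]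
          simp [stp]
      · rw [padicValNat.eq_zero_of_not_dvd hd]
        have h0 : Fin.ofNat p m ≠ 0 := fun h => hd ((ofNat_eq_zero m).1 h)
        show stp (parSt (padicValNat p (m / p))) (some (Fin.ofNat p m)) = parSt 0
        have h1 : parSt 0 = .even := by simp [parSt]
        rw [h1]
        unfold parSt
        split_ifs
        · simp [stp, hd]
        · simp [stp]

theorem eval_word {n : ℤ} (hn : n ≠ 0) :
    (auto p).evalFrom .start (word p n) = parSt (padicValInt p n) := by
  have hm : 0 < n.natAbs := Int.natAbs_pos.2 hn
  rw [word_eq]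
  by_cases h : n < 0
  · rw [if_pos h, DFA.evalFrom_of_append]
    exact eval_dig hm (Or.inr rfl)
  · rw [if_neg h, List.nil_append]
    exact eval_dig hm (Or.inl rfl)

theorem word_snoc {n : ℤ} (hn : n ≠ 0) (d : Fin p) :
    ∃ n' : ℤ, n' ≠ 0 ∧ word p n ++ [some d] = word p n' := by
  have hdig : ∀ m : ℕ, 0 < m → dig p m ++ [some d] = dig p (p * m + d) := by
    intro m hm
    rw [dig_pos (m := p * m + d) (Nat.add_pos_left (Nat.mul_pos hp.1.pos hm) _)]
    congr 2
    · rw [Nat.mul_add_div hp.1.pos, Nat.div_eq_of_lt d.2, add_zero]
    · congr 1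
      congr 1
      ext
      simp [Fin.ofNat, Nat.mod_eq_of_lt d.2]
  rcases lt_or_gt_of_ne hn with h | h
  · refine ⟨-((p * n.natAbs + d : ℕ) : ℤ), ?_, ?_⟩
    · have : 0 < n.natAbs := Int.natAbs_pos.2 hn
      have h2 : 0 < p * n.natAbs + d := Nat.add_pos_left (Nat.mul_pos hp.1.pos this) _
      omega
    · have h2 : 0 < p * n.natAbs + d :=
        Nat.add_pos_left (Nat.mul_pos hp.1.pos (Int.natAbs_pos.2 hn)) _
      rw [word_eq, word_eq, if_pos h, if_pos (by omega), List.append_assoc,
        hdig _ (Int.natAbs_pos.2 hn), Int.natAbs_neg, Int.natAbs_natCast]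
  · refine ⟨((p * n.natAbs + d : ℕ) : ℤ), ?_, ?_⟩
    · have : 0 < n.natAbs := Int.natAbs_pos.2 hn
      have h2 : 0 < p * n.natAbs + d := Nat.add_pos_left (Nat.mul_pos hp.1.pos this) _
      omega
    · rw [word_eq, word_eq, if_neg (by omega), if_neg (by omega), List.nil_append,
        List.nil_append, hdig _ (Int.natAbs_pos.2 hn), Int.natAbs_natCast]

theorem dig_single {d : Fin p} (hd : d ≠ 0) : dig p (d : ℕ) = [some d] := by
  have h0 : 0 < (d : ℕ) := by
    rcases Nat.eq_zero_or_pos (d : ℕ) with h | h
    · exact absurd (Fin.ext h) hd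
    · exact h
  rw [dig_pos h0, Nat.div_eq_of_lt d.2, dig_zero, List.nil_append]
  congr 2
  ext
  simp [Fin.ofNat, Nat.mod_eq_of_lt d.2]

theorem eval_inv (w : List (Option (Fin p))) :
    ((auto p).evalFrom .start w = .start → w = []) ∧
    ((auto p).evalFrom .start w = .minus → w = [none]) ∧
    ((auto p).evalFrom .start w = .even ∨ (auto p).evalFrom .start w = .odd →
      ∃ n : ℤ, n ≠ 0 ∧ w = word p n) := by
  induction w using List.reverseRecOn with
  | nil =>
    refine ⟨fun _ => rfl, fun h => ?_, fun h => ?_⟩
    · rw [DFA.evalFrom_nil] at h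
      exact absurd h (by decide)
    · rw [DFA.evalFrom_nil] at h
      exact absurd h (by decide)
  | append_singleton u a ih =>
    rw [DFA.evalFrom_append_singleton]
    obtain ⟨ih1, ih2, ih3⟩ := ih
    change (stp ((auto p).evalFrom .start u) a = .start → _) ∧
      (stp ((auto p).evalFrom .start u) a = .minus → _) ∧
      (stp ((auto p).evalFrom .start u) a = .even ∨ stp ((auto p).evalFrom .start u) a = .odd → _)
    cases hu : (auto p).evalFrom St.start u with
    | start =>
      have hu' := ih1 hu
      subst hu'
      cases a with
      | none => exact ⟨fun h => absurd h (by simp [stp]), fun _ => rfl, fun h => by simp [stp] at h⟩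
      | some d =>
        by_cases hd : d = 0
        · subst hd
          simp [stp]
        · refine ⟨fun h => by simp [stp, hd] at h, fun h => by simp [stp, hd] at h, fun _ => ?_⟩
          have h0 : (d : ℕ) ≠ 0 := fun h => hd (Fin.ext h)
          refine ⟨(d : ℕ), by exact_mod_cast h0, ?_⟩
          rw [word_eq, if_neg (by omega), Int.natAbs_natCast, dig_single hd]
    | minus =>
      have hu' := ih2 hu
      subst hu'
      cases a with
      | none => simp [stp]
      | some d =>
        by_cases hd : d = 0
        · subst hd
          simp [stp]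
        · refine ⟨fun h => by simp [stp, hd] at h, fun h => by simp [stp, hd] at h, fun _ => ?_⟩
          have h0 : (d : ℕ) ≠ 0 := fun h => hd (Fin.ext h)
          refine ⟨-((d : ℕ) : ℤ), by omega, ?_⟩
          rw [word_eq, if_pos (by omega), Int.natAbs_neg, Int.natAbs_natCast, dig_single hd]
    | even =>
      obtain ⟨n, hn, rfl⟩ := ih3 (Or.inl hu)
      cases a with
      | none => simp [stp]
      | some d =>
        refine ⟨fun h => ?_, fun h => ?_, fun _ => word_snoc hn d⟩
        · by_cases hd : d = 0
          · simp [stp, hd] at h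
          · simp [stp, hd] at h
        · by_cases hd : d = 0
          · simp [stp, hd] at h
          · simp [stp, hd] at h
    | odd =>
      obtain ⟨n, hn, rfl⟩ := ih3 (Or.inr hu)
      cases a with
      | none => simp [stp]
      | some d =>
        refine ⟨fun h => ?_, fun h => ?_, fun _ => word_snoc hn d⟩
        · simp [stp] at h
        · simp [stp] at h
    | dead => simp [stp]

theorem recognized : Recognized p (evenVal p) := by
  refine ⟨St, inferInstance, auto p, ?_⟩
  ext w
  change (auto p).evalFrom .start w = .even ↔ ∃ n ∈ evenVal p, w = word p n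
  constructor
  · intro h
    obtain ⟨n, hn, rfl⟩ := (eval_inv w).2.2 (Or.inl h)
    rw [eval_word hn] at h
    refine ⟨n, ⟨hn, ?_⟩, rfl⟩
    by_contra he
    unfold parSt at h
    rw [if_neg he] at h
    exact absurd h (by decide)
  · rintro ⟨n, ⟨hn, he⟩, rfl⟩
    rw [eval_word hn]
    unfold parSt
    rw [if_pos he]

end

end Pool.Agent.X223.AU
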