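import Mathlib

/-!
Expansions of the additive group of the integers by a unary predicate, automatic sets of integers,
and stability.
-/

set_option autoImplicit false

namespace Pool.Agent.X223.AU

open FirstOrder FirstOrder.Language

/-- The function symbol: addition. -/
inductive AddFn : ℕ → Type
  /-- addition -/
  | add : AddFn 2

/-- The relation symbol of `(ℤ, +, X)`: a unary predicate. -/
inductive PredRel : ℕ → Type
  /-- the predicate -/
  | P : PredRel 1

/-- The relation symbols of `(ℤ, <, +, k^ℕ)`: the order and a unary predicate. -/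
inductive OrdRel : ℕ → Type
  /-- the order -/
  | lt : OrdRel 2
  /-- the predicate -/
  | P : OrdRel 1

/-- The language of `(ℤ, +, X)`. -/
def predLang : FirstOrder.Language := ⟨AddFn, PredRel⟩

/-- The language of `(ℤ, <, +, k^ℕ)`. -/
def ordLang : FirstOrder.Language := ⟨AddFn, OrdRel⟩

/-- The interpretation of addition. -/
def addMap {n : ℕ} (f : AddFn n) : (Fin n → ℤ) → ℤ :=
  AddFn.casesOn (motive := fun n _ => (Fin n → ℤ) → ℤ) f fun x => x 0 + x 1

/-- The structure `(ℤ, +, X)`. -/
@[reducible] def predStr (X : Set ℤ) : predLang.Structure ℤ where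
  funMap := fun f => addMap f
  RelMap := fun r => PredRel.casesOn (motive := fun n _ => (Fin n → ℤ) → Prop) r fun x => x 0 ∈ X

/-- The structure `(ℤ, <, +, k^ℕ)`. -/
@[reducible] def ordStr (k : ℕ) : ordLang.Structure ℤ where
  funMap := fun f => addMap f
  RelMap := fun r => OrdRel.casesOn (motive := fun n _ => (Fin n → ℤ) → Prop) r
    (fun x => x 0 < x 1) (fun x => ∃ j : ℕ, x 0 = (k : ℤ) ^ j)

/-- The set `S` is definable, with parameters, in `(ℤ, +, X)`. -/
def DefinablePred (X : Set ℤ) {n : ℕ} (S : Set (Fin n → ℤ)) : Prop :=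
  letI := predStr X
  (Set.univ : Set ℤ).Definable predLang S

/-- The set `S` is definable, with parameters, in `(ℤ, <, +, k^ℕ)`. -/
def DefinableOrd (k : ℕ) {n : ℕ} (S : Set (Fin n → ℤ)) : Prop :=
  letI := ordStr k
  (Set.univ : Set ℤ).Definable ordLang S

/-- The structures `(ℤ, +, X)` and `(ℤ, <, +, k^ℕ)` define the same sets. -/
def SameSets (X : Set ℤ) (k : ℕ) : Prop :=
  ∀ (n : ℕ) (S : Set (Fin n → ℤ)), DefinablePred X S ↔ DefinableOrd k S

/-- The function `V_k`: the largest power of `k` dividing `n` for `n ≠ 0`, and `V_k(0) = 1`. -/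
noncomputable def V (k : ℕ) (n : ℤ) : ℤ :=
  if n = 0 then 1 else (k : ℤ) ^ (multiplicity (k : ℤ) n)

/-- The structure `(ℤ, +, X)` defines `V_k`. -/
def DefinesV (X : Set ℤ) (k : ℕ) : Prop :=
  DefinablePred X {v : Fin 2 → ℤ | v 1 = V k (v 0)}

/-- A structure is stable: no formula `φ(x; y)` has the order property, i.e. for no formula there
are, for every `N`, tuples `a_i` and `b_j` for `i, j < N` such that `φ(a_i; b_j)` holds if and
only if `i < j`. -/
def Stable (L : FirstOrder.Language.{0, 0}) (M : Type) [L.Structure M] : Prop :=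
  ∀ (n m : ℕ) (φ : L.Formula (Fin n ⊕ Fin m)),
    ¬ ∀ N : ℕ, ∃ (a : Fin N → Fin n → M) (b : Fin N → Fin m → M),
      ∀ i j, φ.Realize (Sum.elim (a i) (b j)) ↔ i < j

/-- The structure `(ℤ, +, X)` is stable. -/
def StablePred (X : Set ℤ) : Prop :=
  letI := predStr X
  Stable predLang ℤ

/-- The expansion of `n` in base `k`: the digits of `|n|`, most significant digit first, with a
leading sign (the letter `none`) if `n` is negative. -/
def word (k : ℕ) [NeZero k] (n : ℤ) : List (Option (Fin k)) :=
  (if n < 0 then [none] else []) ++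
    ((Nat.digits k n.natAbs).reverse.map fun d => some (Fin.ofNat k d))

/-- The set `X` is recognized by a finite automaton over the alphabet `{-, 0, ..., k-1}`. -/
def Recognized (k : ℕ) [NeZero k] (X : Set ℤ) : Prop :=
  Language.IsRegular ({w | ∃ n ∈ X, w = word k n} : _root_.Language (Option (Fin k)))

end Pool.Agent.X223.AU
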