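import Pool.Agent.X223.AU.Tame
import Pool.Agent.X223.AU.Defs

/-!
Definable sets in the group of the integers with the set of the nonzero integers with even
`p`-adic valuation.
-/

set_option autoImplicit false

namespace Pool.Agent.X223.AU

open FirstOrder FirstOrder.Language

/-- The nonzero integers with even `p`-adic valuation. -/
def evenVal (p : ℕ) : Set ℤ := {z | z ≠ 0 ∧ Even (padicValInt p z)}

section

variable {p : ℕ} [hp : Fact p.Prime]

theorem R.evenVal {z z' : ℤ} (h : R p z z') (hz : z ∈ evenVal p) : z' ∈ evenVal p := by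
  obtain ⟨h0, h1⟩ := hz
  have h0' : z' ≠ 0 := by
    rintro rfl
    exact h0 h.symm.zero
  refine ⟨h0', ?_⟩
  have hn := h.norm
  have h2 : (z : ℚ) ≠ 0 := by exact_mod_cast h0
  have h3 : (z' : ℚ) ≠ 0 := by exact_mod_cast h0'
  rw [padicNorm.eq_zpow_of_nonzero h2, padicNorm.eq_zpow_of_nonzero h3] at hn
  have h4 : -padicValRat p (z' : ℚ) = -padicValRat p (z : ℚ) :=
    zpow_right_injective₀ (by exact_mod_cast hp.1.pos) (by exact_mod_cast hp.1.one_lt.ne') hn
  rw [padicValRat.of_int, padicValRat.of_int] at h4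
  have h5 : padicValInt p z' = padicValInt p z := by omega
  rw [h5]
  exact h1

end

section

variable (X : Set ℤ) {α : Type}

theorem term_aff (t : predLang.Term α) :
    letI := predStr X
    IsAff fun w : α → ℤ => t.realize w := by
  let := predStr X
  induction t with
  | var i => exact .coord i
  | func f ts ih =>
    cases f with
    | add => exact .add (ih 0) (ih 1)

end

section

variable {p : ℕ} [hp : Fact p.Prime]

theorem tame_formula {α : Type} {n : ℕ} (φ : predLang.BoundedFormula α n) :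
    letI := predStr (evenVal p)
    Tame p fun w : α ⊕ Fin n → ℤ =>
      φ.Realize (fun a => w (Sum.inl a)) (fun i => w (Sum.inr i)) := by
  let := predStr (evenVal p)
  have helim : ∀ {n : ℕ} (w : α ⊕ Fin n → ℤ),
      Sum.elim (fun a => w (Sum.inl a)) (fun i => w (Sum.inr i)) = w := by
    intro n w
    ext i
    rcases i with i | i <;> rfl
  induction φ with
  | falsum => exact Tame.false_
  | equal t₁ t₂ =>
    refine (Tame.eq_zero (p := p) (IsAff.add (term_aff (evenVal p) t₁)
      (.smul (-1) (term_aff (evenVal p) t₂)))).of_iff fun w => ?_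
    show _ ↔ t₁.realize (Sum.elim (fun a => w (Sum.inl a)) (fun i => w (Sum.inr i))) =
      t₂.realize (Sum.elim (fun a => w (Sum.inl a)) (fun i => w (Sum.inr i)))
    rw [helim]
    constructor
    · intro h
      linarith
    · intro h
      rw [h]
      ring
  | rel r ts =>
    cases r with
    | P =>
      refine ⟨1, {fun w => (ts 0).realize w}, one_ne_zero, Set.finite_singleton _, ?_, ?_⟩
      · rintro _ rfl
        exact term_aff (evenVal p) (ts 0)
      · intro x x' hx hP
        have h1 : R p ((ts 0).realize x) ((ts 0).realize x') := hx.2 _ rfl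
        have h2 : (ts 0).realize (Sum.elim (fun a => x (Sum.inl a)) (fun i => x (Sum.inr i))) ∈
          evenVal p := hP
        show (ts 0).realize (Sum.elim (fun a => x' (Sum.inl a)) (fun i => x' (Sum.inr i))) ∈
          evenVal p
        rw [helim] at h2 ⊢
        exact h1.evenVal h2
  | imp _ _ ih ih' => exact Tame.imp ih ih'
  | @all n φ ih =>
    let e : (α ⊕ Fin n → ℤ) → ℤ → (α ⊕ Fin (n + 1) → ℤ) := fun w a =>
      Sum.elim (fun i => w (Sum.inl i)) (Fin.snoc (α := fun _ => ℤ) (fun i => w (Sum.inr i)) a)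
    have he : IsExt e := by
      rintro (i | i)
      · exact Or.inl ⟨Sum.inl i, fun w a => rfl⟩
      · induction i using Fin.lastCases with
        | last =>
          refine Or.inr fun w a => ?_
          show Fin.snoc (α := fun _ => ℤ) (fun i => w (Sum.inr i)) a (Fin.last n) = a
          rw [Fin.snoc_last]
        | cast i =>
          refine Or.inl ⟨Sum.inr i, fun w a => ?_⟩
          show Fin.snoc (α := fun _ => ℤ) (fun i => w (Sum.inr i)) a i.castSucc = w (Sum.inr i)
          rw [Fin.snoc_castSucc]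
    exact (Tame.forall_ he ih).of_iff fun w => Iff.rfl

theorem exists_neg {D : Set (Fin 1 → ℤ)} (hD : DefinablePred (evenVal p) D) (hinf : D.Infinite) :
    ∃ v ∈ D, v 0 < 0 := by
  let := predStr (evenVal p)
  unfold DefinablePred at hD
  rw [Set.definable_iff_exists_formula_sum] at hD
  obtain ⟨φ, hφ⟩ := hD
  have ht := tame_formula (p := p) φ
  let e : ℤ → (((Set.univ : Set ℤ) ⊕ Fin 1) ⊕ Fin 0 → ℤ) := fun a =>
    Sum.elim (Sum.elim (fun b => (b : ℤ)) fun _ => a) fun i => i.elim0
  have he : ∀ i, (∃ b, ∀ a, e a i = b) ∨ ∀ a, e a i = a := by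
    rintro ((b | i) | i)
    · exact Or.inl ⟨b, fun a => rfl⟩
    · exact Or.inr fun a => rfl
    · exact i.elim0
  have hD' : ∀ a : ℤ, (fun _ => a : Fin 1 → ℤ) ∈ D ↔
      BoundedFormula.Realize φ (fun b => e a (Sum.inl b)) (fun i => e a (Sum.inr i)) := by
    intro a
    rw [hφ]
    show φ.Realize (Sum.elim (↑) fun _ => a) ↔ _
    unfold Formula.Realize
    exact iff_of_eq (congrArg (BoundedFormula.Realize φ (Sum.elim (↑) fun _ => a))
      (Subsingleton.elim _ _))
  have hinf' : {a : ℤ | BoundedFormula.Realize φ (fun b => e a (Sum.inl b))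
      (fun i => e a (Sum.inr i))}.Infinite := by
    have : D = (fun a : ℤ => (fun _ => a : Fin 1 → ℤ)) '' {a : ℤ | BoundedFormula.Realize φ
        (fun b => e a (Sum.inl b)) (fun i => e a (Sum.inr i))} := by
      ext v
      constructor
      · intro hv
        refine ⟨v 0, ?_, ?_⟩
        · show BoundedFormula.Realize φ _ _
          rw [← hD' (v 0)]
          convert hv using 1
          ext i
          rw [Subsingleton.elim i 0]
        · ext i
          rw [Subsingleton.elim i 0]
      · rintro ⟨a, ha, rfl⟩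
        exact (hD' a).2 ha
    rw [this] at hinf
    exact Set.Infinite.of_image _ hinf
  obtain ⟨x₀, Q, hQ, hall⟩ := Tame.unary ht he hinf'
  obtain ⟨t, ht⟩ : ∃ t : ℤ, x₀ + Q * t < 0 := by
    refine ⟨- Q * (|x₀| + 1), ?_⟩
    have h1 : 1 ≤ Q * Q := by
      have := mul_self_pos.2 hQ
      omega
    have h2 : x₀ ≤ |x₀| := le_abs_self x₀
    have h3 : 0 ≤ |x₀| := abs_nonneg x₀
    nlinarith
  exact ⟨fun _ => x₀ + Q * t, (hD' _).2 (hall t), ht⟩

theorem not_sameSets : ¬ SameSets (evenVal p) p := by
  intro h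
  have h1 : DefinableOrd p {v : Fin 1 → ℤ | v 0 < v 0 + v 0} := by
    let := ordStr p
    show (Set.univ : Set ℤ).Definable ordLang _
    have : (∅ : Set ℤ).Definable ordLang {v : Fin 1 → ℤ | v 0 < v 0 + v 0} := by
      rw [Set.empty_definable_iff]
      refine ⟨Relations.formula (L := ordLang) (OrdRel.lt : ordLang.Relations 2)
        ![Term.var 0, Term.func (L := ordLang) (AddFn.add : ordLang.Functions 2)
          ![Term.var 0, Term.var 0] ], ?_⟩
      ext v
      exact Iff.rfl
    exact this.mono (Set.empty_subset _)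
  obtain ⟨v, hv, hneg⟩ := exists_neg ((h 1 _).2 h1) (by
    have : (fun n : ℕ => (fun _ => (n : ℤ) + 1 : Fin 1 → ℤ)) '' Set.univ ⊆
        {v : Fin 1 → ℤ | v 0 < v 0 + v 0} := by
      rintro _ ⟨n, -, rfl⟩
      show ((n : ℤ) + 1) < (n + 1) + (n + 1)
      omega
    refine Set.Infinite.mono this (Set.Infinite.image ?_ Set.infinite_univ)
    intro a _ b _ hab
    have := congrFun hab 0
    simpa using this)
  have : v 0 < v 0 + v 0 := hv
  omega

theorem not_definesV : ¬ DefinesV (evenVal p) p := by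
  intro h
  let := predStr (evenVal p)
  have h1 : DefinablePred (evenVal p) {v : Fin 1 → ℤ | v 0 = V p (v 0)} := by
    have h2 : (Set.univ : Set ℤ).Definable predLang {v : Fin 2 → ℤ | v 1 = V p (v 0)} := h
    have := h2.preimage_comp (fun _ : Fin 2 => (0 : Fin 1))
    exact this
  obtain ⟨v, hv, hneg⟩ := exists_neg h1 (by
    have : (fun n : ℕ => (fun _ => (p : ℤ) ^ n : Fin 1 → ℤ)) '' Set.univ ⊆
        {v : Fin 1 → ℤ | v 0 = V p (v 0)} := by
      rintro _ ⟨n, -, rfl⟩
      show (p : ℤ) ^ n = V p ((p : ℤ) ^ n)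
      unfold V
      have hp0 : (p : ℤ) ≠ 0 := by exact_mod_cast hp.1.ne_zero
      rw [if_neg (pow_ne_zero n hp0)]
      congr 1
      rw [multiplicity_pow_self_of_prime]
      exact Nat.prime_iff_prime_int.1 hp.1
    refine Set.Infinite.mono this (Set.Infinite.image ?_ Set.infinite_univ)
    intro a _ b _ hab
    have h3 := congrFun hab 0
    simp only at h3
    have h4 : p ^ a = p ^ b := by exact_mod_cast h3
    exact Nat.pow_right_injective hp.1.two_le h4)
  have h5 : v 0 = V p (v 0) := hv
  have h6 : 0 < V p (v 0) := by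
    unfold V
    split_ifs
    · exact one_pos
    · exact pow_pos (by exact_mod_cast hp.1.pos) _
  omega

theorem padicValInt_add_pow {a b : ℕ} (hab : a ≠ b) :
    padicValInt p ((p : ℤ) ^ a + (p : ℤ) ^ b) = min a b := by
  have hp1 := hp.1.one_lt
  have h1 : padicValNat p (p ^ a + p ^ b) = min a b := by
    have h2 : ∀ a b : ℕ, a < b → padicValNat p (p ^ a + p ^ b) = a := by
      intro a b h
      have h3 : p ^ a + p ^ b = p ^ a * (1 + p ^ (b - a)) := by
        rw [mul_add, mul_one, ← pow_add]
        congr 2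
        omega
      rw [h3, padicValNat.mul (pow_ne_zero _ hp.1.ne_zero) (by positivity), padicValNat.prime_pow]
      have h4 : padicValNat p (1 + p ^ (b - a)) = 0 := by
        refine padicValNat.eq_zero_of_not_dvd fun hd => ?_
        have h5 : p ∣ p ^ (b - a) := dvd_pow_self p (by omega)
        have h6 : p ∣ 1 := (Nat.dvd_add_left h5).1 hd
        exact hp.1.one_lt.ne' (Nat.dvd_one.1 h6)
      rw [h4, add_zero]
    rcases lt_or_gt_of_ne hab with h | h
    · rw [h2 a b h, min_eq_left h.le]
    · rw [add_comm, h2 b a h, min_eq_right h.le]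
  have h2 : ((p : ℤ) ^ a + (p : ℤ) ^ b) = ((p ^ a + p ^ b : ℕ) : ℤ) := by push_cast; rfl
  rw [h2, padicValInt.of_nat, h1]

theorem not_stable : ¬ StablePred (evenVal p) := by
  let := predStr (evenVal p)
  intro h
  refine h 1 1 (Relations.formula (L := predLang) (PredRel.P : predLang.Relations 1)
    ![Term.func (L := predLang) (AddFn.add : predLang.Functions 2)
      ![Term.var (Sum.inl 0), Term.var (Sum.inr 0)] ]) fun N => ?_
  refine ⟨fun i _ => (p : ℤ) ^ (2 * (i : ℕ) + 2), fun j _ => (p : ℤ) ^ (2 * (j : ℕ) + 1), ?_⟩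
  intro i j
  show (p : ℤ) ^ (2 * (i : ℕ) + 2) + (p : ℤ) ^ (2 * (j : ℕ) + 1) ∈ evenVal p ↔ i < j
  have hne : 2 * (i : ℕ) + 2 ≠ 2 * (j : ℕ) + 1 := by omega
  unfold evenVal
  rw [Set.mem_ofPred_eq, padicValInt_add_pow hne]
  have hpos : (p : ℤ) ^ (2 * (i : ℕ) + 2) + (p : ℤ) ^ (2 * (j : ℕ) + 1) ≠ 0 := by
    have : (0 : ℤ) < p := by exact_mod_cast hp.1.pos
    positivity
  rw [Fin.lt_def]
  constructor
  · rintro ⟨-, h1⟩
    by_contra hle
    rw [min_eq_right (by omega)] at h1
    exact (Nat.not_even_iff_odd.2 ⟨(j : ℕ), rfl⟩) h1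
  · intro hlt
    refine ⟨hpos, ?_⟩
    rw [min_eq_left (by omega)]
    exact ⟨(i : ℕ) + 1, by ring⟩

end

end Pool.Agent.X223.AU
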