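import Mathlib

/-!
Sets of tuples of integers that are determined by residues and by leading `p`-adic digits of
affine forms, and their closure under projections.
-/

set_option autoImplicit false

namespace Pool.Agent.X223.AU

open FirstOrder FirstOrder.Language

/-- The integers `z` and `z'` are equal or `p`-adically close relative to their size. -/
def R (p : ℕ) (z z' : ℤ) : Prop := z = z' ∨ padicNorm p ((z' : ℚ) - z) < padicNorm p z

variable {p : ℕ} [hp : Fact p.Prime]

theorem norm_eq {z z' : ℤ} (h : padicNorm p ((z' : ℚ) - z) < padicNorm p z) :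
    padicNorm p z' = padicNorm p z := by
  have h1 : (z' : ℚ) = ((z' : ℚ) - z) + z := by ring
  rw [h1, padicNorm.add_eq_max_of_ne h.ne, max_eq_right h.le]

theorem R.symm {z z' : ℤ} (h : R p z z') : R p z' z := by
  rcases h with h | h
  · exact Or.inl h.symm
  · refine Or.inr ?_
    rw [norm_eq h, ← padicNorm.neg, neg_sub]
    exact h

theorem R.zero {z : ℤ} (h : R p 0 z) : z = 0 := by
  rcases h with h | h
  · exact h.symm
  · rw [Int.cast_zero, padicNorm.zero] at h
    exact absurd h (not_lt.2 (padicNorm.nonneg _))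

theorem R.norm {z z' : ℤ} (h : R p z z') : padicNorm p z' = padicNorm p z := by
  rcases h with h | h
  · rw [h]
  · exact norm_eq h

/-- Affine forms with integer coefficients in finitely many of the coordinates. -/
inductive IsAff {Γ : Type} : ((Γ → ℤ) → ℤ) → Prop
  | const (c : ℤ) : IsAff fun _ => c
  | coord (i : Γ) : IsAff fun w => w i
  | add {L L' : (Γ → ℤ) → ℤ} (h : IsAff L) (h' : IsAff L') : IsAff fun w => L w + L' w
  | smul {L : (Γ → ℤ) → ℤ} (c : ℤ) (h : IsAff L) : IsAff fun w => c * L w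

theorem IsAff.dvd {Γ : Type} {L : (Γ → ℤ) → ℤ} (h : IsAff L) {N : ℤ} {x x' : Γ → ℤ}
    (hx : ∀ i, N ∣ x' i - x i) : N ∣ L x' - L x := by
  induction h with
  | const c => simp
  | coord i => exact hx i
  | add _ _ ih ih' =>
    have := dvd_add ih ih'
    rw [add_sub_add_comm]
    exact this
  | smul c _ ih =>
    rw [← mul_sub]
    exact Dvd.dvd.mul_left ih c

/-- A map that adds a value to a tuple: each coordinate of the result is a coordinate of the
tuple or the added value. -/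
def IsExt {Γ Γ' : Type} (e : (Γ → ℤ) → ℤ → (Γ' → ℤ)) : Prop :=
  ∀ i', (∃ i, ∀ w a, e w a i' = w i) ∨ ∀ w a, e w a i' = a

theorem IsAff.decomp {Γ Γ' : Type} {e : (Γ → ℤ) → ℤ → (Γ' → ℤ)} (he : IsExt e)
    {L : (Γ' → ℤ) → ℤ} (h : IsAff L) :
    ∃ (A : (Γ → ℤ) → ℤ) (c : ℤ), IsAff A ∧ ∀ w a, L (e w a) = A w + c * a := by
  induction h with
  | const c => exact ⟨fun _ => c, 0, .const c, fun w a => by ring⟩
  | coord i' =>
    rcases he i' with ⟨i, hi⟩ | hi
    · exact ⟨fun w => w i, 0, .coord i, fun w a => by beta_reduce; rw [hi]; ring⟩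
    · exact ⟨fun _ => 0, 1, .const 0, fun w a => by beta_reduce; rw [hi]; ring⟩
  | add _ _ ih ih' =>
    obtain ⟨A, c, hA, h⟩ := ih
    obtain ⟨A', c', hA', h'⟩ := ih'
    exact ⟨fun w => A w + A' w, c + c', .add hA hA', fun w a => by beta_reduce; rw [h, h']; ring⟩
  | smul d _ ih =>
    obtain ⟨A, c, hA, h⟩ := ih
    exact ⟨fun w => d * A w, d * c, .smul d hA, fun w a => by beta_reduce; rw [h]; ring⟩

variable (p) in
/-- Equal residues modulo `N` and close values of the forms in `F`. -/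
def Near {Γ : Type} (N : ℤ) (F : Set ((Γ → ℤ) → ℤ)) (x x' : Γ → ℤ) : Prop :=
  (∀ i, N ∣ x' i - x i) ∧ ∀ L ∈ F, R p (L x) (L x')

theorem Near.symm {Γ : Type} {N : ℤ} {F : Set ((Γ → ℤ) → ℤ)} {x x' : Γ → ℤ}
    (h : Near p N F x x') : Near p N F x' x :=
  ⟨fun i => (dvd_sub_comm).1 (h.1 i), fun L hL => (h.2 L hL).symm⟩

variable (p) in
/-- Predicates determined by residues and leading digits of affine forms. -/
def Tame {Γ : Type} (P : (Γ → ℤ) → Prop) : Prop :=
  ∃ (N : ℤ) (F : Set ((Γ → ℤ) → ℤ)), N ≠ 0 ∧ F.Finite ∧ (∀ L ∈ F, IsAff L) ∧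
    ∀ x x', Near p N F x x' → P x → P x'

theorem Tame.imp {Γ : Type} {P Q : (Γ → ℤ) → Prop} (hP : Tame p P) (hQ : Tame p Q) :
    Tame p fun w => P w → Q w := by
  obtain ⟨N, F, hN, hF, hA, h⟩ := hP
  obtain ⟨N', F', hN', hF', hA', h'⟩ := hQ
  refine ⟨N * N', F ∪ F', mul_ne_zero hN hN', hF.union hF', ?_, ?_⟩
  · rintro L (hL | hL)
    · exact hA L hL
    · exact hA' L hL
  · intro x x' hx hPQ hPx'
    have h1 : Near p N F x x' := ⟨fun i => (dvd_mul_right N N').trans (hx.1 i),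
      fun L hL => hx.2 L (Or.inl hL)⟩
    have h2 : Near p N' F' x x' := ⟨fun i => (dvd_mul_left N' N).trans (hx.1 i),
      fun L hL => hx.2 L (Or.inr hL)⟩
    exact h' x x' h2 (hPQ (h x' x h1.symm hPx'))

theorem Tame.forall_ {Γ Γ' : Type} {e : (Γ → ℤ) → ℤ → (Γ' → ℤ)} (he : IsExt e)
    {P : (Γ' → ℤ) → Prop} (hP : Tame p P) : Tame p fun w => ∀ a, P (e w a) := by
  classical
  obtain ⟨N, F, hN, hF, hA, h⟩ := hP
  choose A c hAA hAc using fun (L : (Γ' → ℤ) → ℤ) (hL : IsAff L) => hL.decomp he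
  -- total versions
  let A' : ((Γ' → ℤ) → ℤ) → ((Γ → ℤ) → ℤ) := fun L => if hL : IsAff L then A L hL else fun _ => 0
  let c' : ((Γ' → ℤ) → ℤ) → ℤ := fun L => if hL : IsAff L then c L hL else 0
  have hA1 : ∀ L ∈ F, IsAff (A' L) := by
    intro L hL
    have h1 : A' L = A L (hA L hL) := dif_pos (hA L hL)
    rw [h1]
    exact hAA L (hA L hL)
  have hA2 : ∀ L ∈ F, ∀ w a, L (e w a) = A' L w + c' L * a := by
    intro L hL w a
    have h1 : A' L = A L (hA L hL) := dif_pos (hA L hL)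
    have h2 : c' L = c L (hA L hL) := dif_pos (hA L hL)
    rw [h1, h2]
    exact hAc L (hA L hL) w a
  let F' : Set ((Γ → ℤ) → ℤ) := A' '' F ∪
    (fun q : ((Γ' → ℤ) → ℤ) × ((Γ' → ℤ) → ℤ) => fun w => c' q.2 * A' q.1 w + (- c' q.1) * A' q.2 w)
      '' (F ×ˢ F)
  let C : ℤ := ∏ L ∈ hF.toFinset, if c' L = 0 then 1 else c' L
  have hC : C ≠ 0 := by
    refine Finset.prod_ne_zero_iff.2 fun L _ => ?_
    split_ifs with h0
    · exact one_ne_zero
    · exact h0
  have hCd : ∀ L ∈ F, c' L ≠ 0 → c' L ∣ C := by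
    intro L hL h0
    have := Finset.dvd_prod_of_mem (fun L => if c' L = 0 then 1 else c' L)
      (hF.mem_toFinset.2 hL)
    rwa [if_neg h0] at this
  -- the main step
  have key : ∀ x x' : Γ → ℤ, Near p (N * C) F' x x' → ∀ a, ∃ a', Near p N F (e x a) (e x' a') := by
    intro x x' hx a
    have hres : ∀ a', N ∣ a' - a → ∀ i', N ∣ e x' a' i' - e x a i' := by
      intro a' ha' i'
      rcases he i' with ⟨i, hi⟩ | hi
      · rw [hi, hi]
        exact (dvd_mul_right N C).trans (hx.1 i)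
      · rw [hi, hi]
        exact ha'
    by_cases hne : ∃ L ∈ F, c' L ≠ 0
    · -- choose the form with the closest root
      let G : Finset ((Γ' → ℤ) → ℤ) := hF.toFinset.filter fun L => c' L ≠ 0
      have hG : ∀ L, L ∈ G ↔ L ∈ F ∧ c' L ≠ 0 := by
        intro L
        rw [Finset.mem_filter, hF.mem_toFinset]
      obtain ⟨M, hMG, hM⟩ := Finset.exists_min_image G
        (fun L => padicNorm p ((L (e x a) : ℚ) / (c' L : ℚ))) (by
          obtain ⟨L, hL, hL'⟩ := hne
          exact ⟨L, (hG L).2 ⟨hL, hL'⟩⟩)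
      obtain ⟨hMF, hMc⟩ := (hG M).1 hMG
      obtain ⟨t, ht⟩ : c' M * N ∣ A' M x' - A' M x := by
        refine dvd_trans ?_ ((hA1 M hMF).dvd hx.1)
        rw [mul_comm]
        exact mul_dvd_mul_left N (hCd M hMF hMc)
      refine ⟨a - N * t, hres _ ⟨-t, by ring⟩, ?_⟩
      have hMM : M (e x' (a - N * t)) = M (e x a) := by
        rw [hA2 M hMF, hA2 M hMF]
        linear_combination ht
      intro L hL
      have h1 : R p (c' M * A' L x + (- c' L) * A' M x) (c' M * A' L x' + (- c' L) * A' M x') :=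
        hx.2 _ (Or.inr ⟨(L, M), ⟨hL, hMF⟩, rfl⟩)
      have h2 : c' M * (L (e x' (a - N * t)) - L (e x a)) =
          (c' M * A' L x' + (- c' L) * A' M x') - (c' M * A' L x + (- c' L) * A' M x) := by
        have e1 := hA2 L hL x (a)
        have e2 := hA2 L hL x' (a - N * t)
        rw [e1, e2]
        linear_combination (c' L) * ht
      rcases h1 with h1 | h1
      · left
        rw [← h1, sub_self] at h2
        rcases mul_eq_zero.1 h2 with h3 | h3
        · exact absurd h3 hMc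
        · exact (sub_eq_zero.1 h3).symm
      · by_cases hLc : c' L = 0
        · -- the form does not involve the new variable
          have h3 : R p (A' L x) (A' L x') := hx.2 _ (Or.inl ⟨L, hL, rfl⟩)
          rw [hA2 L hL, hA2 L hL, hLc, zero_mul, zero_mul, add_zero, add_zero]
          exact h3
        · right
          have h3 : padicNorm p ((M (e x a) : ℚ) / (c' M : ℚ)) ≤
              padicNorm p ((L (e x a) : ℚ) / (c' L : ℚ)) := hM L ((hG L).2 ⟨hL, hLc⟩)
          rw [padicNorm.div, padicNorm.div] at h3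
          have hcM : 0 < padicNorm p (c' M : ℚ) := by
            refine lt_of_le_of_ne (padicNorm.nonneg _) (Ne.symm ?_)
            exact padicNorm.nonzero (by exact_mod_cast hMc)
          have hcL : 0 < padicNorm p (c' L : ℚ) := by
            refine lt_of_le_of_ne (padicNorm.nonneg _) (Ne.symm ?_)
            exact padicNorm.nonzero (by exact_mod_cast hLc)
          rw [div_le_div_iff₀ hcM hcL] at h3
          have h4 : padicNorm p ((c' M * A' L x + (- c' L) * A' M x : ℤ) : ℚ) ≤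
              padicNorm p (c' M : ℚ) * padicNorm p (L (e x a) : ℚ) := by
            have h5 : ((c' M * A' L x + (- c' L) * A' M x : ℤ) : ℚ) =
                (c' M : ℚ) * (L (e x a) : ℚ) - (c' L : ℚ) * (M (e x a) : ℚ) := by
              rw [hA2 L hL, hA2 M hMF]
              push_cast
              ring
            rw [h5]
            refine (padicNorm.sub).trans ?_
            rw [padicNorm.mul, padicNorm.mul]
            refine max_le le_rfl ?_
            rw [mul_comm (padicNorm p (c' L : ℚ)), mul_comm (padicNorm p (c' M : ℚ))]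
            exact h3
          have h6 : padicNorm p (c' M : ℚ) *
              padicNorm p ((L (e x' (a - N * t)) : ℚ) - (L (e x a) : ℚ)) <
              padicNorm p (c' M : ℚ) * padicNorm p (L (e x a) : ℚ) := by
            refine lt_of_eq_of_lt ?_ (lt_of_lt_of_le h1 h4)
            rw [← padicNorm.mul]
            congr 1
            exact_mod_cast h2
          exact lt_of_mul_lt_mul_left h6 hcM.le
    · push Not at hne
      refine ⟨a, hres a (by simp), fun L hL => ?_⟩
      have h3 : R p (A' L x) (A' L x') := hx.2 _ (Or.inl ⟨L, hL, rfl⟩)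
      rw [hA2 L hL, hA2 L hL, hne L hL, zero_mul, add_zero, add_zero]
      exact h3
  refine ⟨N * C, F', mul_ne_zero hN hC, ?_, ?_, ?_⟩
  · exact (hF.image _).union ((hF.prod hF).image _)
  · rintro L (⟨L', hL', rfl⟩ | ⟨⟨L1, L2⟩, ⟨h1, h2⟩, rfl⟩)
    · exact hA1 L' hL'
    · exact .add (.smul _ (hA1 L1 h1)) (.smul _ (hA1 L2 h2))
  · intro x x' hx hPx a'
    obtain ⟨a, ha⟩ := key x' x hx.symm a'
    exact h _ _ ha.symm (hPx a)

theorem Tame.of_iff {Γ : Type} {P Q : (Γ → ℤ) → Prop} (hP : Tame p P) (h : ∀ w, P w ↔ Q w) :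
    Tame p Q := by
  obtain ⟨N, F, hN, hF, hA, hh⟩ := hP
  exact ⟨N, F, hN, hF, hA, fun x x' hx hQ => (h x').1 (hh x x' hx ((h x).2 hQ))⟩

theorem Tame.false_ {Γ : Type} : Tame p fun _ : Γ → ℤ => False :=
  ⟨1, ∅, one_ne_zero, Set.finite_empty, by simp, fun _ _ _ h => h⟩

theorem Tame.eq_zero {Γ : Type} {L : (Γ → ℤ) → ℤ} (h : IsAff L) : Tame p fun w => L w = 0 := by
  refine ⟨1, {L}, one_ne_zero, Set.finite_singleton _, ?_, ?_⟩
  · rintro _ rfl
    exact h
  · intro x x' hx h0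
    have h1 := hx.2 L rfl
    rw [h0] at h1
    exact h1.zero

theorem IsAff.decomp1 {Γ : Type} {e : ℤ → (Γ → ℤ)}
    (he : ∀ i, (∃ b, ∀ a, e a i = b) ∨ ∀ a, e a i = a) {L : (Γ → ℤ) → ℤ} (h : IsAff L) :
    ∃ A c : ℤ, ∀ a, L (e a) = A + c * a := by
  induction h with
  | const c => exact ⟨c, 0, fun a => by ring⟩
  | coord i =>
    rcases he i with ⟨b, hi⟩ | hi
    · exact ⟨b, 0, fun a => by beta_reduce; rw [hi]; ring⟩
    · exact ⟨0, 1, fun a => by beta_reduce; rw [hi]; ring⟩
  | add _ _ ih ih' =>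
    obtain ⟨A, c, h⟩ := ih
    obtain ⟨A', c', h'⟩ := ih'
    exact ⟨A + A', c + c', fun a => by beta_reduce; rw [h, h']; ring⟩
  | smul d _ ih =>
    obtain ⟨A, c, h⟩ := ih
    exact ⟨d * A, d * c, fun a => by beta_reduce; rw [h]; ring⟩

/-- An infinite tame set of integers contains a whole progression. -/
theorem Tame.unary {Γ : Type} {P : (Γ → ℤ) → Prop} (hP : Tame p P) {e : ℤ → (Γ → ℤ)}
    (he : ∀ i, (∃ b, ∀ a, e a i = b) ∨ ∀ a, e a i = a) (hinf : {a : ℤ | P (e a)}.Infinite) :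
    ∃ x₀ Q : ℤ, Q ≠ 0 ∧ ∀ t : ℤ, P (e (x₀ + Q * t)) := by
  classical
  obtain ⟨N, F, hN, hF, hA, h⟩ := hP
  choose A c hAc using fun (L : (Γ → ℤ) → ℤ) (hL : IsAff L) => hL.decomp1 he
  let A' : ((Γ → ℤ) → ℤ) → ℤ := fun L => if hL : IsAff L then A L hL else 0
  let c' : ((Γ → ℤ) → ℤ) → ℤ := fun L => if hL : IsAff L then c L hL else 0
  have hA2 : ∀ L ∈ F, ∀ a, L (e a) = A' L + c' L * a := by
    intro L hL a
    have h1 : A' L = A L (hA L hL) := dif_pos (hA L hL)
    have h2 : c' L = c L (hA L hL) := dif_pos (hA L hL)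
    rw [h1, h2]
    exact hAc L (hA L hL) a
  -- the roots
  let Z : Set ℤ := ⋃ L ∈ F, {a | c' L ≠ 0 ∧ L (e a) = 0}
  have hZ : Z.Finite := by
    refine hF.biUnion fun L hL => ?_
    refine Set.Subsingleton.finite ?_
    rintro a ⟨ha0, ha⟩ b ⟨_, hb⟩
    rw [hA2 L hL] at ha hb
    have : c' L * a = c' L * b := by linarith
    exact mul_left_cancel₀ ha0 this
  obtain ⟨x₀, hx₀, hx₀Z⟩ := hinf.exists_notMem_finite hZ
  have hx₀Z' : ∀ L ∈ F, c' L ≠ 0 → L (e x₀) ≠ 0 := by
    intro L hL hc h0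
    exact hx₀Z (Set.mem_biUnion hL ⟨hc, h0⟩)
  let C : ℤ := ∏ L ∈ hF.toFinset, if c' L = 0 then 1 else (p : ℤ) * L (e x₀)
  have hp0 : (p : ℤ) ≠ 0 := by exact_mod_cast hp.1.ne_zero
  have hC : C ≠ 0 := by
    refine Finset.prod_ne_zero_iff.2 fun L hL => ?_
    split_ifs with h0
    · exact one_ne_zero
    · exact mul_ne_zero hp0 (hx₀Z' L (hF.mem_toFinset.1 hL) h0)
  have hCd : ∀ L ∈ F, c' L ≠ 0 → (p : ℤ) * L (e x₀) ∣ C := by
    intro L hL h0
    have := Finset.dvd_prod_of_mem (fun L => if c' L = 0 then 1 else (p : ℤ) * L (e x₀))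
      (hF.mem_toFinset.2 hL)
    rwa [if_neg h0] at this
  refine ⟨x₀, N * C, mul_ne_zero hN hC, fun t => ?_⟩
  refine h (e x₀) _ ⟨fun i => ?_, fun L hL => ?_⟩ hx₀
  · rcases he i with ⟨b, hi⟩ | hi
    · rw [hi, hi, sub_self]
      exact dvd_zero N
    · rw [hi, hi]
      exact ⟨C * t, by ring⟩
  · by_cases hc : c' L = 0
    · left
      rw [hA2 L hL, hA2 L hL, hc, zero_mul, zero_mul]
    · right
      obtain ⟨s, hs⟩ := hCd L hL hc
      have h1 : (L (e (x₀ + N * C * t)) : ℚ) - (L (e x₀) : ℚ) =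
          (p : ℚ) * ((L (e x₀) : ℚ) * ((s * c' L * N * t : ℤ) : ℚ)) := by
        have h2 : L (e (x₀ + N * C * t)) - L (e x₀) =
            (p : ℤ) * (L (e x₀) * (s * c' L * N * t)) := by
          have e1 := hA2 L hL (x₀ + N * C * t)
          have e2 := hA2 L hL x₀
          rw [e1]
          linear_combination (-1 : ℤ) * e2 + (c' L * N * t) * hs
        exact_mod_cast h2
      rw [h1, padicNorm.mul, padicNorm.mul]
      have h3 : padicNorm p (p : ℚ) < 1 := padicNorm.padicNorm_p_lt_one_of_prime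
      have h4 : padicNorm p ((s * c' L * N * t : ℤ) : ℚ) ≤ 1 := padicNorm.of_int _
      have h5 : 0 < padicNorm p (L (e x₀) : ℚ) := by
        refine lt_of_le_of_ne (padicNorm.nonneg _) (Ne.symm ?_)
        exact padicNorm.nonzero (by exact_mod_cast hx₀Z' L hL hc)
      have h6 : 0 ≤ padicNorm p (p : ℚ) := padicNorm.nonneg _
      calc padicNorm p (p : ℚ) * (padicNorm p (L (e x₀) : ℚ) *
            padicNorm p ((s * c' L * N * t : ℤ) : ℚ))
          ≤ padicNorm p (p : ℚ) * (padicNorm p (L (e x₀) : ℚ) * 1) := by gcongr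
        _ = padicNorm p (p : ℚ) * padicNorm p (L (e x₀) : ℚ) := by rw [mul_one]
        _ < 1 * padicNorm p (L (e x₀) : ℚ) := by gcongr
        _ = padicNorm p (L (e x₀) : ℚ) := one_mul _

end Pool.Agent.X223.AU
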